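import Pool.Agent.Helper54.SR.Defs

/-!
# SR-D4: polynomials with regular values have regular coefficients
-/

set_option autoImplicit false
open scoped Pointwise
open Polynomial Pool.Agent.Helper54.PW

namespace Pool.Agent.Helper54.SR

section

variable {k : Type} [Field k]

private theorem d4_coeff_iI (g : OO k) (r e : ℕ) :
    (PowerSeries.coeff r (iI k g)).coeff (e : ℤ) = PowerSeries.coeff e (PowerSeries.coeff r g) := by
  unfold iI
  rw [PowerSeries.coeff_map]
  exact LaurentSeries.coeff_coe_powerSeries _ _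

private theorem d4_isUnit (y : PowerSeries k) (hy : PowerSeries.constantCoeff y ≠ 0) :
    IsUnit (PowerSeries.C y : OO k) := by
  have h : IsUnit y := PowerSeries.isUnit_iff_constantCoeff.2 (isUnit_iff_ne_zero.2 hy)
  exact h.map PowerSeries.C

private theorem d4_isUnit_det {n : ℕ} (y : Fin n → PowerSeries k)
    (hy : Function.Injective fun i => PowerSeries.constantCoeff (y i)) :
    IsUnit (Matrix.vandermonde fun i => (PowerSeries.C (y i) : OO k)).det := by
  rw [Matrix.det_vandermonde]
  rw [IsUnit.prod_univ_iff]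
  intro i
  rw [IsUnit.prod_iff]
  intro j hj
  rw [Finset.mem_Ioi] at hj
  rw [← map_sub]
  apply d4_isUnit
  rw [map_sub, sub_ne_zero]
  intro h
  exact hj.ne (hy h).symm

private theorem d4_eval {n : ℕ} {R : Type} [CommRing R] (H : Polynomial R) (hdeg : H.degree < n)
    (x : R) : H.eval x = ∑ j : Fin n, x ^ (j : ℕ) * H.coeff j := by
  rw [Finset.sum_range (fun j => x ^ j * H.coeff j) |>.symm]
  rcases eq_or_ne H 0 with h | h
  · subst h
    simp
  · have hn : H.natDegree < n := (Polynomial.natDegree_lt_iff_degree_lt h).2 hdeg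
    rw [Polynomial.eval_eq_sum_range' hn]
    exact Finset.sum_congr rfl fun i _ => mul_comm _ _

private theorem d4_regular {n : ℕ} (y : Fin n → PowerSeries k)
    (hy : Function.Injective fun i => PowerSeries.constantCoeff (y i))
    (H : Polynomial (EE k)) (hdeg : H.degree < n)
    (hreg : ∀ i, H.eval (cE (y i)) ∈ (iI k).range) (j : Fin n) :
    ∃ g : OO k, iI k g = H.coeff j := by
  classical
  choose v hv using hreg
  set V : Matrix (Fin n) (Fin n) (OO k) :=
    Matrix.vandermonde fun i => (PowerSeries.C (y i) : OO k) with hV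
  have hdet := d4_isUnit_det y hy
  rw [← hV] at hdet
  have h1 : (V.map (iI k)).mulVec (fun j : Fin n => H.coeff j) = fun i => iI k (v i) := by
    funext i
    rw [hv i, d4_eval H hdeg]
    simp only [Matrix.mulVec, dotProduct, Matrix.map_apply, hV, Matrix.vandermonde_apply, map_pow]
    rfl
  have h2 : (V⁻¹.map (iI k)) * (V.map (iI k)) = 1 := by
    rw [← Matrix.map_mul, Matrix.nonsing_inv_mul _ hdet]
    ext a b
    rw [Matrix.map_apply, Matrix.one_apply, Matrix.one_apply]
    split_ifs <;> simp
  have h3 : (fun j : Fin n => H.coeff j) = (V⁻¹.map (iI k)).mulVec (fun i => iI k (v i)) := by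
    rw [← h1, Matrix.mulVec_mulVec, h2, Matrix.one_mulVec]
  refine ⟨∑ i, V⁻¹ j i * v i, ?_⟩
  have h4 := congrFun h3 j
  simp only [Matrix.mulVec, dotProduct, Matrix.map_apply] at h4
  rw [h4, map_sum]
  exact Finset.sum_congr rfl fun i _ => map_mul _ _ _

/-- the polynomial of degree `< m` with the first coefficients of `g` -/
private noncomputable def d4_poly (m : ℕ) (g : OO k) : (PowerSeries k)[X] :=
  ∑ e ∈ Finset.range m, C (PowerSeries.mk fun r => PowerSeries.coeff e (PowerSeries.coeff r g)) * X ^ e

private theorem d4_poly_degree (m : ℕ) (g : OO k) (h : d4_poly m g ≠ 0) :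
    (d4_poly m g).natDegree < m := by
  rw [Polynomial.natDegree_lt_iff_degree_lt h]
  unfold d4_poly
  rw [Finset.sum_range]
  exact Polynomial.degree_sum_fin_lt _

private theorem d4_jO (m : ℕ) (g : OO k)
    (hg : ∀ r e, m ≤ e → PowerSeries.coeff e (PowerSeries.coeff r g) = 0) :
    jO k (d4_poly m g) = g := by
  ext r e
  unfold d4_poly
  rw [map_sum, map_sum, map_sum]
  have h1 : ∀ i ∈ Finset.range m, PowerSeries.coeff e (PowerSeries.coeff r (jO k
      (C (PowerSeries.mk fun r => PowerSeries.coeff i (PowerSeries.coeff r g)) * X ^ i))) =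
      if i = e then PowerSeries.coeff e (PowerSeries.coeff r g) else 0 := by
    intro i _
    unfold jO uO
    rw [Polynomial.coe_eval₂RingHom, Polynomial.eval₂_mul, Polynomial.eval₂_C,
      Polynomial.eval₂_X_pow, ← map_pow, PowerSeries.coeff_mul_C, PowerSeries.coeff_map,
      PowerSeries.coeff_mk, PowerSeries.coeff_C_mul, PowerSeries.coeff_X_pow]
    by_cases h : e = i
    · subst h
      simp
    · rw [if_neg h, if_neg (fun h' => h h'.symm), mul_zero]
  rw [Finset.sum_congr rfl h1, Finset.sum_ite_eq']
  split_ifs with h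
  · rfl
  · rw [Finset.mem_range, not_lt] at h
    rw [hg r e h]

/-- SR-D4 -/
theorem regular_poly {n d M : ℕ} (y : Fin n → PowerSeries k)
    (hy : Function.Injective fun i => PowerSeries.constantCoeff (y i))
    (H : Polynomial (EE k)) (hdeg : H.degree < n) (hW : WF d M H)
    (hreg : ∀ i, H.eval (cE (y i)) ∈ (iI k).range) :
    ∃ H' : (PowerSeries k)[X][X], H'.degree < n ∧ H'.map (jE k) = H ∧
      ∀ j, H'.coeff j ≠ 0 → (H'.coeff j).natDegree + d * j ≤ M := by
  choose g hg using d4_regular y hy H hdeg hreg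
  have hgz : ∀ j : Fin n, ∀ r e : ℕ, M + 1 - d * j ≤ e →
      PowerSeries.coeff e (PowerSeries.coeff r (g j)) = 0 := by
    intro j r e he
    rw [← d4_coeff_iI, hg j]
    apply hW j r e
    have h1 : M < d * (j : ℕ) + e := by omega
    have h2 : (M : ℤ) < d * ((j : ℕ) : ℤ) + e := by exact_mod_cast h1
    linarith
  have hcoeff : ∀ j : ℕ, (∑ i : Fin n, C (d4_poly (M + 1 - d * i) (g i)) * X ^ (i : ℕ) :
      (PowerSeries k)[X][X]).coeff j =
      if h : j < n then d4_poly (M + 1 - d * j) (g ⟨j, h⟩) else 0 := by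
    intro j
    rw [Polynomial.finsetSum_coeff]
    simp only [Polynomial.coeff_C_mul_X_pow]
    split_ifs with h
    · rw [Finset.sum_eq_single (⟨j, h⟩ : Fin n)]
      · simp
      · intro b _ hb
        rw [if_neg]
        intro hjb
        apply hb
        ext
        exact hjb.symm
      · intro h'
        exact absurd (Finset.mem_univ _) h'
    · apply Finset.sum_eq_zero
      intro i _
      rw [if_neg]
      intro h'
      exact h (h' ▸ i.2)
  refine ⟨∑ i : Fin n, C (d4_poly (M + 1 - d * i) (g i)) * X ^ (i : ℕ),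
    Polynomial.degree_sum_fin_lt _, ?_, ?_⟩
  · ext1 j
    rw [Polynomial.coeff_map, hcoeff]
    split_ifs with h
    · have h1 : jE k (d4_poly (M + 1 - d * j) (g ⟨j, h⟩)) =
          iI k (jO k (d4_poly (M + 1 - d * j) (g ⟨j, h⟩))) := rfl
      rw [h1, d4_jO _ _ (hgz ⟨j, h⟩), hg]
    · rw [map_zero]
      symm
      apply Polynomial.coeff_eq_zero_of_degree_lt
      apply hdeg.trans_le
      exact_mod_cast not_lt.1 h
  · intro j hj
    rw [hcoeff] at hj ⊢
    split_ifs at hj ⊢ with h
    · have h1 := d4_poly_degree _ _ hj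
      omega
    · exact absurd rfl hj

end

end Pool.Agent.Helper54.SR
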